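import Pool.Agent.Helper54.PT.DefsF
import Pool.Agent.Helper32.TW.B12B13

/-! # A9: genericity at all places (MP_1d384c_nt) -/

set_option autoImplicit false

namespace Pool.Agent.Helper54.PT

open Finset Module

set_option synthInstance.maxSize 4000 in
/-- two generators of an isotropic plane, in coordinates -/
theorem a9_dec1 : ∀ a0 a1 a2 a3 b0 b1 b2 b3 : ZMod 2, ¬ (a0 = 0 ∧ a1 = 0 ∧ a2 = 0 ∧ a3 = 0) →
    ¬ (b0 = 0 ∧ b1 = 0 ∧ b2 = 0 ∧ b3 = 0) → ¬ (a0 = b0 ∧ a1 = b1 ∧ a2 = b2 ∧ a3 = b3) →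
    a2 * a0 + a3 * a1 = 0 → b2 * b0 + b3 * b1 = 0 →
    (a2 + b2) * (a0 + b0) + (a3 + b3) * (a1 + b1) = 0 →
    (a0 = 0 ∧ a1 = 0 ∧ b0 = 0 ∧ b1 = 0) ∨ (a2 = 0 ∧ a3 = 0 ∧ b2 = 0 ∧ b3 = 0) ∨
    (a2 = a1 ∧ a3 = a0 ∧ b2 = b1 ∧ b3 = b0) ∨
    ((∃ c d : ZMod 2, c * a0 + d * b0 = 1 ∧ c * a1 + d * b1 = 0 ∧ c * a2 + d * b2 = 0 ∧
        c * a3 + d * b3 = 0) ∧
      ∃ c d : ZMod 2, c * a0 + d * b0 = 0 ∧ c * a1 + d * b1 = 0 ∧ c * a2 + d * b2 = 0 ∧
        c * a3 + d * b3 = 1) ∨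
    ((∃ c d : ZMod 2, c * a0 + d * b0 = 0 ∧ c * a1 + d * b1 = 1 ∧ c * a2 + d * b2 = 0 ∧
        c * a3 + d * b3 = 0) ∧
      ∃ c d : ZMod 2, c * a0 + d * b0 = 0 ∧ c * a1 + d * b1 = 0 ∧ c * a2 + d * b2 = 1 ∧
        c * a3 + d * b3 = 0) ∨
    ((∃ c d : ZMod 2, c * a0 + d * b0 = 1 ∧ c * a1 + d * b1 = 1 ∧ c * a2 + d * b2 = 0 ∧
        c * a3 + d * b3 = 0) ∧
      ∃ c d : ZMod 2, c * a0 + d * b0 = 0 ∧ c * a1 + d * b1 = 0 ∧ c * a2 + d * b2 = 1 ∧
        c * a3 + d * b3 = 1) := by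
  decide

theorem a9_ext (x : (Fin 2 → ZMod 2) × (Fin 2 → ZMod 2)) (c d : ZMod 2)
    (a b : (Fin 2 → ZMod 2) × (Fin 2 → ZMod 2)) (h0 : c * a.1 0 + d * b.1 0 = x.1 0)
    (h1 : c * a.1 1 + d * b.1 1 = x.1 1) (h2 : c * a.2 0 + d * b.2 0 = x.2 0)
    (h3 : c * a.2 1 + d * b.2 1 = x.2 1) : x = c • a + d • b := by
  refine Prod.ext ?_ ?_
  · funext j
    fin_cases j
    · simpa using h0.symm
    · simpa using h1.symm
  · funext j
    fin_cases j
    · simpa using h2.symm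
    · simpa using h3.symm

theorem a9_zero (x : (Fin 2 → ZMod 2) × (Fin 2 → ZMod 2)) (h : x.1 0 = 0 ∧ x.1 1 = 0 ∧
    x.2 0 = 0 ∧ x.2 1 = 0) : x = 0 := by
  obtain ⟨h0, h1, h2, h3⟩ := h
  refine Prod.ext ?_ ?_
  · funext j
    fin_cases j
    · exact h0
    · exact h1
  · funext j
    fin_cases j
    · exact h2
    · exact h3

/-- two generators of an isotropic plane -/
theorem a9_dec (a b : (Fin 2 → ZMod 2) × (Fin 2 → ZMod 2)) (ha : a ≠ 0) (hb : b ≠ 0) (hab : a ≠ b)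
    (h1 : a.2 0 * a.1 0 + a.2 1 * a.1 1 = 0) (h2 : b.2 0 * b.1 0 + b.2 1 * b.1 1 = 0)
    (h3 : (a + b).2 0 * (a + b).1 0 + (a + b).2 1 * (a + b).1 1 = 0) :
    (a.1 = 0 ∧ b.1 = 0) ∨ (a.2 = 0 ∧ b.2 = 0) ∨
    (a.2 = ![a.1 1, a.1 0] ∧ b.2 = ![b.1 1, b.1 0]) ∨
    ((∃ c d : ZMod 2, (![1, 0], 0) = c • a + d • b) ∧ ∃ c d : ZMod 2, (0, ![0, 1]) = c • a + d • b) ∨
    ((∃ c d : ZMod 2, (![0, 1], 0) = c • a + d • b) ∧ ∃ c d : ZMod 2, (0, ![1, 0]) = c • a + d • b) ∨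
    ((∃ c d : ZMod 2, (![1, 1], 0) = c • a + d • b) ∧ ∃ c d : ZMod 2, (0, ![1, 1]) = c • a + d • b) := by
  rcases a9_dec1 (a.1 0) (a.1 1) (a.2 0) (a.2 1) (b.1 0) (b.1 1) (b.2 0) (b.2 1)
    (fun h => ha (a9_zero a h)) (fun h => hb (a9_zero b h)) (fun h => hab (by
      have : a - b = 0 := a9_zero _ (by
        simp only [Prod.fst_sub, Prod.snd_sub, Pi.sub_apply, sub_eq_zero]
        exact h)
      exact sub_eq_zero.1 this)) h1 h2 h3 with
    ⟨h0, h1, h2, h3⟩ | ⟨h0, h1, h2, h3⟩ | ⟨h0, h1, h2, h3⟩ |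
    ⟨⟨c, d, e0, e1, e2, e3⟩, ⟨c', d', f0, f1, f2, f3⟩⟩ |
    ⟨⟨c, d, e0, e1, e2, e3⟩, ⟨c', d', f0, f1, f2, f3⟩⟩ |
    ⟨⟨c, d, e0, e1, e2, e3⟩, ⟨c', d', f0, f1, f2, f3⟩⟩
  · left
    refine ⟨?_, ?_⟩ <;> funext j <;> fin_cases j <;> assumption
  · right; left
    refine ⟨?_, ?_⟩ <;> funext j <;> fin_cases j <;> assumption
  · right; right; left
    refine ⟨?_, ?_⟩ <;> funext j <;> fin_cases j <;> assumption
  · right; right; right; left
    exact ⟨⟨c, d, a9_ext _ c d a b e0 e1 e2 e3⟩, ⟨c', d', a9_ext _ c' d' a b f0 f1 f2 f3⟩⟩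
  · right; right; right; right; left
    exact ⟨⟨c, d, a9_ext _ c d a b e0 e1 e2 e3⟩, ⟨c', d', a9_ext _ c' d' a b f0 f1 f2 f3⟩⟩
  · right; right; right; right; right
    exact ⟨⟨c, d, a9_ext _ c d a b e0 e1 e2 e3⟩, ⟨c', d', a9_ext _ c' d' a b f0 f1 f2 f3⟩⟩

theorem a9_two (x : ZMod 2) : x + x = 0 := by
  revert x; decide

variable {σ : Type}

/-- A9: genericity -/
theorem genericO_tauF (A B C : Option σ → ZMod 2) (h1 : ∃ s, A s + B s ≠ 0)
    (h2 : ∃ s, A s + C s ≠ 0) (h3 : ∃ s, B s + C s ≠ 0) : GenericO (tauF A B C) := by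
  intro 𝒰 hU hcard hstd hstd3
  by_contra hcon
  push Not at hcon
  obtain ⟨u₀, W, hW, hmem⟩ := coset_of_unl 𝒰 hU hcard
  have hW2 : finrank (ZMod 2) W = 2 := by rw [hW]; rfl
  have m0 : u₀ ∈ 𝒰 := (hmem _).2 (by rw [sub_self]; exact W.zero_mem)
  -- the quadratic form
  have hq : ∀ w ∈ W, w.2 0 * w.1 0 + w.2 1 * w.1 1 = 0 := by
    intro w hw
    have m1 : u₀ + w ∈ 𝒰 := (hmem _).2 (by rw [add_sub_cancel_left]; exact hw)
    have h := hU _ m1 _ m0
    simp only [PhiJ, Fin.sum_univ_two, Prod.fst_add, Prod.snd_add, Pi.add_apply] at h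
    linear_combination -h
  -- the polar form
  have hB : ∀ s, ∀ w ∈ W, ∀ w' ∈ W, ∑ j, (w.2 j * tauF A B C w'.1 j s +
      w'.2 j * tauF A B C w.1 j s) = 0 := by
    intro s w hw w' hw'
    obtain ⟨η, ω, c, hc⟩ := hcon s
    have hF : ∀ u ∈ 𝒰, ∑ j, (u.2 j * tauF A B C u.1 j s -
        (η j * u.1 j + ω j * u.2 j)) = c := by
      intro u hu
      rw [sum_sub_distrib, hc u hu]
      ring
    have m1 : u₀ + w ∈ 𝒰 := (hmem _).2 (by rw [add_sub_cancel_left]; exact hw)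
    have m2 : u₀ + w' ∈ 𝒰 := (hmem _).2 (by rw [add_sub_cancel_left]; exact hw')
    have m3 : u₀ + (w + w') ∈ 𝒰 := (hmem _).2 (by
      rw [add_sub_cancel_left]; exact W.add_mem hw hw')
    calc ∑ j, (w.2 j * tauF A B C w'.1 j s + w'.2 j * tauF A B C w.1 j s) =
          ∑ j, (((((u₀ + (w + w')).2 j * tauF A B C (u₀ + (w + w')).1 j s -
            (η j * (u₀ + (w + w')).1 j + ω j * (u₀ + (w + w')).2 j)) -
            ((u₀ + w).2 j * tauF A B C (u₀ + w).1 j s -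
            (η j * (u₀ + w).1 j + ω j * (u₀ + w).2 j))) -
            ((u₀ + w').2 j * tauF A B C (u₀ + w').1 j s -
            (η j * (u₀ + w').1 j + ω j * (u₀ + w').2 j))) +
            (u₀.2 j * tauF A B C u₀.1 j s - (η j * u₀.1 j + ω j * u₀.2 j))) := by
            refine sum_congr rfl fun j _ => ?_
            simp only [Prod.fst_add, Prod.snd_add, map_add, Pi.add_apply]
            ring
        _ = 0 := by
            rw [sum_add_distrib, sum_sub_distrib, sum_sub_distrib, hF _ m0, hF _ m1, hF _ m2,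
              hF _ m3]
            ring
  -- a basis of `W`
  let bas : Basis (Fin 2) (ZMod 2) W := Module.finBasisOfFinrankEq (ZMod 2) W hW2
  set a : (Fin 2 → ZMod 2) × (Fin 2 → ZMod 2) := (bas 0).1 with ha
  set b : (Fin 2 → ZMod 2) × (Fin 2 → ZMod 2) := (bas 1).1 with hb
  have haW : a ∈ W := (bas 0).2
  have hbW : b ∈ W := (bas 1).2
  have ha0 : a ≠ 0 := fun h => bas.ne_zero 0 (Subtype.ext h)
  have hb0 : b ≠ 0 := fun h => bas.ne_zero 1 (Subtype.ext h)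
  have hab : a ≠ b := fun h => by
    have := bas.injective (Subtype.ext h)
    exact absurd this (by decide)
  have hspan : ∀ w ∈ W, ∃ c d : ZMod 2, w = c • a + d • b := by
    intro w hw
    have h := bas.sum_repr ⟨w, hw⟩
    rw [Fin.sum_univ_two] at h
    have h' := congrArg Subtype.val h
    exact ⟨_, _, h'.symm⟩
  have hdim : ∀ f : ((Fin 2 → ZMod 2) × (Fin 2 → ZMod 2)) →ₗ[ZMod 2]
      (Fin 2 → ZMod 2), Function.Surjective f → f a = 0 → f b = 0 →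
      ∀ w, w ∈ W ↔ f w = 0 := by
    intro f hf hfa hfb
    have h3 : W ≤ LinearMap.ker f := fun w hw => by
      obtain ⟨c, d, h⟩ := hspan w hw
      rw [LinearMap.mem_ker, h, map_add, map_smul, map_smul, hfa, hfb, smul_zero, smul_zero,
        add_zero]
    have h4 := LinearMap.finrank_range_add_finrank_ker f
    rw [LinearMap.range_eq_top.2 hf, finrank_top, finrank_prod, finrank_fintype_fun_eq_card] at h4
    have h5 : W = LinearMap.ker f := Submodule.eq_of_le_of_finrank_eq h3 (by rw [hW]; omega)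
    intro w
    rw [h5, LinearMap.mem_ker]
  have hmemW : ∀ x, (∃ c d : ZMod 2, x = c • a + d • b) → x ∈ W := by
    rintro x ⟨c, d, h⟩
    rw [h]
    exact W.add_mem (W.smul_mem _ haW) (W.smul_mem _ hbW)
  rcases a9_dec a b ha0 hb0 hab (hq a haW) (hq b hbW) (hq _ (W.add_mem haW hbW)) with
    h | h | h | ⟨hx, hy⟩ | ⟨hx, hy⟩ | ⟨hx, hy⟩
  · apply hstd
    left
    have h3 := hdim (LinearMap.fst _ _ _) LinearMap.fst_surjective h.1 h.2
    refine ⟨u₀.1, fun u => ?_⟩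
    rw [hmem, h3, LinearMap.fst_apply, Prod.fst_sub, sub_eq_zero]
  · apply hstd
    right
    have h3 := hdim (LinearMap.snd _ _ _) LinearMap.snd_surjective h.1 h.2
    refine ⟨u₀.2, fun u => ?_⟩
    rw [hmem, h3, LinearMap.snd_apply, Prod.snd_sub, sub_eq_zero]
  · apply hstd3
    let L : (Fin 2 → ZMod 2) →ₗ[ZMod 2] (Fin 2 → ZMod 2) :=
      { toFun := fun v => ![v 1, v 0]
        map_add' := fun x y => by
          funext j
          fin_cases j <;> simp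
        map_smul' := fun c x => by
          funext j
          fin_cases j <;> simp }
    let f : ((Fin 2 → ZMod 2) × (Fin 2 → ZMod 2)) →ₗ[ZMod 2]
      (Fin 2 → ZMod 2) := LinearMap.snd _ _ _ - L.comp (LinearMap.fst _ _ _)
    have hfa : ∀ w, f w = w.2 - ![w.1 1, w.1 0] := fun _ => rfl
    have hfs : Function.Surjective f := fun v => ⟨(0, v), by
      rw [hfa]
      funext j
      fin_cases j <;> simp⟩
    have h3 := hdim f hfs (by rw [hfa, h.1]; simp) (by rw [hfa, h.2]; simp)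
    refine ⟨fun j => u₀.2 j - (u₀.1 j + ∑ i, u₀.1 i), fun u => ?_⟩
    rw [hmem, h3, hfa, funext_iff, Fin.forall_fin_two, Fin.forall_fin_two, Fin.sum_univ_two]
    have t := a9_two (u.1 0)
    have t1 := a9_two (u.1 1)
    have t0 := a9_two (u₀.1 0)
    have t01 := a9_two (u₀.1 1)
    simp only [Prod.snd_sub, Prod.fst_sub, Pi.sub_apply, Pi.zero_apply, Matrix.cons_val_zero,
      Matrix.cons_val_one, Fin.sum_univ_two]
    constructor
    · rintro ⟨h4, h5⟩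
      constructor
      · linear_combination h4 - t + t0
      · linear_combination h5 - t1 + t01
    · rintro ⟨h4, h5⟩
      constructor
      · linear_combination h4 + t - t0
      · linear_combination h5 + t1 - t01
  · obtain ⟨s, hs⟩ := h2
    have := hB s _ (hmemW _ hx) _ (hmemW _ hy)
    simp [tauF, Fin.sum_univ_two] at this
    exact hs this
  · obtain ⟨s, hs⟩ := h1
    have := hB s _ (hmemW _ hx) _ (hmemW _ hy)
    simp [tauF, Fin.sum_univ_two] at this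
    exact hs this
  · obtain ⟨s, hs⟩ := h3
    have := hB s _ (hmemW _ hx) _ (hmemW _ hy)
    simp [tauF, Fin.sum_univ_two] at this
    apply hs
    have t := a9_two (A s)
    linear_combination this - 2 * t

end Pool.Agent.Helper54.PT
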